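import Mathlib

set_option autoImplicit false

namespace Pool.Agent.H75Ty

variable {L : Type*} [LinearOrder L]

/-- the pairs `(x, y)` and `(x', y')` have the same order type -/
def SameType (x y x' y' : List L) : Prop :=
  x.length = x'.length ∧ y.length = y'.length ∧
    ∀ (i j : ℕ) (hi : i < (x ++ y).length) (hj : j < (x ++ y).length)
      (hi' : i < (x' ++ y').length) (hj' : j < (x' ++ y').length),
      (x ++ y)[i] < (x ++ y)[j] ↔ (x' ++ y')[i] < (x' ++ y')[j]

/-- the pattern of a sequence -/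
def pat (l : List L) : List (List Bool) := l.map fun a => l.map fun b => decide (a < b)

theorem pat_eq {l l' : List L} (h : pat l = pat l') (i j : ℕ) (hi : i < l.length)
    (hj : j < l.length) (hi' : i < l'.length) (hj' : j < l'.length) :
    l[i] < l[j] ↔ l'[i] < l'[j] := by
  have h1 : (pat l)[i]'(by simpa [pat] using hi) = (pat l')[i]'(by simpa [pat] using hi') := by
    simp only [h]
  simp only [pat, List.getElem_map] at h1
  have h2 : (l.map fun b => decide (l[i] < b))[j]'(by simpa using hj)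
      = (l'.map fun b => decide (l'[i] < b))[j]'(by simpa using hj') := by
    simp only [h1]
  simp only [List.getElem_map] at h2
  exact decide_eq_decide.1 h2

theorem exists_phi (a b c : Fin 4) : ∃ φ : Fin 4 → Fin 3, ∀ d, (d = a ∨ d = b ∨ d = c) →
    ∀ e, (e = a ∨ e = b ∨ e = c) → d < e → φ d < φ e := by
  refine ⟨fun d => ⟨min 2 ((if a < d then 1 else 0) + (if b < d then 1 else 0)
    + (if c < d then 1 else 0)), by omega⟩, ?_⟩
  revert a b c
  decide

section core

variable {n : ℕ} (fx fy fz : Fin n → L)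

/-- the relation on four rows -/
def R (p q : Fin 4 × Fin n) : Prop :=
  (p.1 < q.1 ∧ fx p.2 < fy q.2) ∨ (p.1 = q.1 ∧ fx p.2 < fx q.2) ∨
    (q.1 < p.1 ∧ fy p.2 < fx q.2)

variable (h00 : ∀ i j, fx i < fx j ↔ fy i < fy j) (h11 : ∀ i j, fy i < fy j ↔ fz i < fz j)
  (h01 : ∀ i j, fx i < fy j ↔ fy i < fz j) (h02 : ∀ i j, fx i < fy j ↔ fx i < fz j)
  (h10 : ∀ i j, fy i < fx j ↔ fz i < fy j) (h20 : ∀ i j, fy i < fx j ↔ fz i < fx j)

include h00 h11 h01 h02 h10 h20

theorem three (p q s : Fin 4 × Fin n) : ∃ v : Fin 4 × Fin n → L,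
    ∀ a, (a = p ∨ a = q ∨ a = s) → ∀ b, (b = p ∨ b = q ∨ b = s) →
      (R fx fy a b ↔ v a < v b) := by
  obtain ⟨φ, hφ⟩ := exists_phi p.1 q.1 s.1
  set vec : Fin 3 → Fin n → L := ![fx, fy, fz] with hvec
  have k1 : ∀ (u t : Fin 3) (i j : Fin n), u < t → ((vec u i < vec t j ↔ fx i < fy j) ∧
      (vec t i < vec u j ↔ fy i < fx j)) := by
    intro u t i j hut
    fin_cases u <;> fin_cases t <;> simp [hvec] at hut ⊢
    · exact ⟨(h02 i j).symm, (h20 i j).symm⟩
    · exact ⟨(h01 i j).symm, (h10 i j).symm⟩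
  have k2 : ∀ (u : Fin 3) (i j : Fin n), (vec u i < vec u j ↔ fx i < fx j) := by
    intro u i j
    fin_cases u <;> simp [hvec]
    · exact (h00 i j).symm
    · exact ((h00 i j).trans (h11 i j)).symm
  refine ⟨fun a => vec (φ a.1) a.2, ?_⟩
  intro a ha b hb
  have ha1 : a.1 = p.1 ∨ a.1 = q.1 ∨ a.1 = s.1 := by
    rcases ha with rfl | rfl | rfl <;> simp
  have hb1 : b.1 = p.1 ∨ b.1 = q.1 ∨ b.1 = s.1 := by
    rcases hb with rfl | rfl | rfl <;> simp
  rcases lt_trichotomy a.1 b.1 with h | h | h
  · have h1 := (k1 _ _ a.2 b.2 (hφ _ ha1 _ hb1 h)).1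
    rw [h1]
    unfold R
    simp [h, h.ne, h.le.not_gt]
  · show R fx fy a b ↔ vec (φ a.1) a.2 < vec (φ b.1) b.2
    rw [h, k2]
    unfold R
    simp [h]
  · have h1 := (k1 _ _ b.2 a.2 (hφ _ hb1 _ ha1 h)).2
    have h2 := (k1 _ _ a.2 b.2 (hφ _ hb1 _ ha1 h)).2
    show R fx fy a b ↔ vec (φ a.1) a.2 < vec (φ b.1) b.2
    rw [h2]
    unfold R
    simp [h, h.ne', h.le.not_gt]

theorem R_irrefl (p : Fin 4 × Fin n) : ¬R fx fy p p := by
  obtain ⟨v, hv⟩ := three fx fy fz h00 h11 h01 h02 h10 h20 p p p
  rw [hv p (Or.inl rfl) p (Or.inl rfl)]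
  exact lt_irrefl _

theorem R_trans {p q s : Fin 4 × Fin n} (h1 : R fx fy p q) (h2 : R fx fy q s) :
    R fx fy p s := by
  obtain ⟨v, hv⟩ := three fx fy fz h00 h11 h01 h02 h10 h20 p q s
  rw [hv p (by simp) q (by simp)] at h1
  rw [hv q (by simp) s (by simp)] at h2
  rw [hv p (by simp) s (by simp)]
  exact h1.trans h2

theorem R_neg {p q s : Fin 4 × Fin n} (h1 : ¬R fx fy p q) (h2 : ¬R fx fy q s) :
    ¬R fx fy p s := by
  obtain ⟨v, hv⟩ := three fx fy fz h00 h11 h01 h02 h10 h20 p q s
  rw [hv p (by simp) q (by simp)] at h1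
  rw [hv q (by simp) s (by simp)] at h2
  rw [hv p (by simp) s (by simp)]
  exact not_lt.2 ((not_lt.1 h2).trans (not_lt.1 h1))

open Classical in
theorem exists_real [Infinite L] : ∃ f : Fin 4 × Fin n → L, ∀ p q, f p < f q ↔ R fx fy p q := by
  set r : Fin 4 × Fin n → ℕ := fun p => (Finset.univ.filter fun q => R fx fy q p).card with hr
  have hrr : ∀ p q, r p < r q ↔ R fx fy p q := by
    intro p q
    constructor
    · intro h
      by_contra hcon
      apply absurd h
      rw [not_lt]
      apply Finset.card_le_card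
      intro s hs
      simp only [Finset.mem_filter, Finset.mem_univ, true_and] at hs ⊢
      by_contra hsp
      exact R_neg fx fy fz h00 h11 h01 h02 h10 h20 hsp hcon hs
    · intro h
      apply Finset.card_lt_card
      rw [Finset.ssubset_iff_of_subset]
      · exact ⟨p, by simpa using h, by
          simpa using R_irrefl fx fy fz h00 h11 h01 h02 h10 h20 p⟩
      · intro s hs
        simp only [Finset.mem_filter, Finset.mem_univ, true_and] at hs ⊢
        exact R_trans fx fy fz h00 h11 h01 h02 h10 h20 hs h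
  obtain ⟨S, hS⟩ := Infinite.exists_subset_card_eq L (Fintype.card (Fin 4 × Fin n) + 1)
  have hlt : ∀ p, r p < Fintype.card (Fin 4 × Fin n) + 1 := fun p =>
    Nat.lt_succ_of_le (Finset.card_le_univ _)
  refine ⟨fun p => S.orderEmbOfFin hS ⟨r p, hlt p⟩, ?_⟩
  intro p q
  rw [← hrr, OrderEmbedding.lt_iff_lt]
  rfl

end core

/-- the core: no monochromatic triangle -/
theorem core [Infinite L] (G : SimpleGraph (List L))
    (hG : ∀ x y x' y', SameType x y x' y' → G.Adj x y → G.Adj x' y') (hK : G.CliqueFree 4)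
    (x y z : List L) (hxy : G.Adj x y) (l1 : x.length = y.length) (l2 : y.length = z.length)
    (e1 : pat (x ++ y) = pat (y ++ z)) (e2 : pat (x ++ y) = pat (x ++ z)) : False := by
  set n := x.length with hn
  set fx : Fin n → L := fun i => x[i] with hfx
  set fy : Fin n → L := fun i => y[i.val]'(by omega) with hfy
  set fz : Fin n → L := fun i => z[i.val]'(by omega) with hfz
  have A1 : ∀ (u w : List L) (i : Fin n) (hu : u.length = n) (hi : i.val < (u ++ w).length),
      (u ++ w)[i.val] = u[i.val]'(by omega) := by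
    intro u w i hu hi
    rw [List.getElem_append_left]
  have A2 : ∀ (u w : List L) (i : Fin n) (hu : u.length = n) (hw : w.length = n)
      (hi : n + i.val < (u ++ w).length),
      (u ++ w)[n + i.val] = w[i.val]'(by omega) := by
    intro u w i hu hw hi
    rw [List.getElem_append_right (by omega)]
    congr 1
    omega
  have hx : x.length = n := rfl
  have hy : y.length = n := by omega
  have hz : z.length = n := by omega
  have len : ∀ (u w : List L), u.length = n → w.length = n → (u ++ w).length = n + n := by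
    intro u w hu hw
    rw [List.length_append, hu, hw]
  have h00 : ∀ i j, fx i < fx j ↔ fy i < fy j := by
    intro i j
    have := pat_eq e1 i.val j.val (by rw [len x y hx hy]; omega) (by rw [len x y hx hy]; omega)
      (by rw [len y z hy hz]; omega) (by rw [len y z hy hz]; omega)
    rwa [A1 x y i hx, A1 x y j hx, A1 y z i hy, A1 y z j hy] at this
  have h11 : ∀ i j, fy i < fy j ↔ fz i < fz j := by
    intro i j
    have := pat_eq e1 (n + i.val) (n + j.val) (by rw [len x y hx hy]; omega)
      (by rw [len x y hx hy]; omega) (by rw [len y z hy hz]; omega)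
      (by rw [len y z hy hz]; omega)
    rwa [A2 x y i hx hy, A2 x y j hx hy, A2 y z i hy hz, A2 y z j hy hz] at this
  have h01 : ∀ i j, fx i < fy j ↔ fy i < fz j := by
    intro i j
    have := pat_eq e1 i.val (n + j.val) (by rw [len x y hx hy]; omega)
      (by rw [len x y hx hy]; omega) (by rw [len y z hy hz]; omega)
      (by rw [len y z hy hz]; omega)
    rwa [A1 x y i hx, A2 x y j hx hy, A1 y z i hy, A2 y z j hy hz] at this
  have h02 : ∀ i j, fx i < fy j ↔ fx i < fz j := by
    intro i j
    have := pat_eq e2 i.val (n + j.val) (by rw [len x y hx hy]; omega)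
      (by rw [len x y hx hy]; omega) (by rw [len x z hx hz]; omega)
      (by rw [len x z hx hz]; omega)
    rwa [A1 x y i hx, A2 x y j hx hy, A1 x z i hx, A2 x z j hx hz] at this
  have h10 : ∀ i j, fy i < fx j ↔ fz i < fy j := by
    intro i j
    have := pat_eq e1 (n + i.val) j.val (by rw [len x y hx hy]; omega)
      (by rw [len x y hx hy]; omega) (by rw [len y z hy hz]; omega)
      (by rw [len y z hy hz]; omega)
    rwa [A2 x y i hx hy, A1 x y j hx, A2 y z i hy hz, A1 y z j hy] at this
  have h20 : ∀ i j, fy i < fx j ↔ fz i < fx j := by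
    intro i j
    have := pat_eq e2 (n + i.val) j.val (by rw [len x y hx hy]; omega)
      (by rw [len x y hx hy]; omega) (by rw [len x z hx hz]; omega)
      (by rw [len x z hx hz]; omega)
    rwa [A2 x y i hx hy, A1 x y j hx, A2 x z i hx hz, A1 x z j hx] at this
  obtain ⟨f, hf⟩ := exists_real fx fy fz h00 h11 h01 h02 h10 h20
  set w : Fin 4 → List L := fun a => List.ofFn fun i => f (a, i) with hw
  have hwl : ∀ a, (w a).length = n := fun a => by simp [hw]
  have hwg : ∀ a (i : Fin n), (w a)[i.val]'(by rw [hwl]; exact i.2) = f (a, i) := by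
    intro a i
    simp [hw]
  have hadj : ∀ a b : Fin 4, a < b → G.Adj (w a) (w b) := by
    intro a b hab
    apply hG x y (w a) (w b) _ hxy
    refine ⟨by rw [hwl], by rw [hwl, hy], ?_⟩
    intro i j hi hj hi' hj'
    rw [len x y hx hy] at hi hj
    have ne : ¬b < a := hab.le.not_gt
    rcases lt_or_ge i n with ci | ci <;> rcases lt_or_ge j n with cj | cj
    · rw [A1 x y ⟨i, ci⟩ hx, A1 x y ⟨j, cj⟩ hx, A1 (w a) (w b) ⟨i, ci⟩ (hwl a),
        A1 (w a) (w b) ⟨j, cj⟩ (hwl a), hwg a ⟨i, ci⟩, hwg a ⟨j, cj⟩, hf]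
      unfold R
      simp [hfx]
    · obtain ⟨k, rfl⟩ := Nat.exists_eq_add_of_le cj
      have hk : k < n := by omega
      rw [A1 x y ⟨i, ci⟩ hx, A2 x y ⟨k, hk⟩ hx hy, A1 (w a) (w b) ⟨i, ci⟩ (hwl a),
        A2 (w a) (w b) ⟨k, hk⟩ (hwl a) (hwl b), hwg a ⟨i, ci⟩, hwg b ⟨k, hk⟩, hf]
      unfold R
      simp [hfx, hfy, hab, hab.ne, ne]
    · obtain ⟨k, rfl⟩ := Nat.exists_eq_add_of_le ci
      have hk : k < n := by omega
      rw [A2 x y ⟨k, hk⟩ hx hy, A1 x y ⟨j, cj⟩ hx, A2 (w a) (w b) ⟨k, hk⟩ (hwl a) (hwl b),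
        A1 (w a) (w b) ⟨j, cj⟩ (hwl a), hwg b ⟨k, hk⟩, hwg a ⟨j, cj⟩, hf]
      unfold R
      simp [hfx, hfy, hab, hab.ne', ne]
    · obtain ⟨k, rfl⟩ := Nat.exists_eq_add_of_le ci
      obtain ⟨l, rfl⟩ := Nat.exists_eq_add_of_le cj
      have hk : k < n := by omega
      have hl : l < n := by omega
      rw [A2 x y ⟨k, hk⟩ hx hy, A2 x y ⟨l, hl⟩ hx hy,
        A2 (w a) (w b) ⟨k, hk⟩ (hwl a) (hwl b), A2 (w a) (w b) ⟨l, hl⟩ (hwl a) (hwl b),
        hwg b ⟨k, hk⟩, hwg b ⟨l, hl⟩, hf]
      have := h00 ⟨k, hk⟩ ⟨l, hl⟩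
      unfold R
      simp only [lt_irrefl, false_and, true_and, false_or, or_false]
      exact this.symm
  have hadj' : ∀ a b : Fin 4, a ≠ b → G.Adj (w a) (w b) := by
    intro a b hab
    rcases lt_or_gt_of_ne hab with h | h
    · exact hadj a b h
    · exact (hadj b a h).symm
  have hinj : Function.Injective w := by
    intro a b hab
    by_contra hne
    have := hadj' a b hne
    rw [hab] at this
    exact G.loopless.irrefl _ this
  have emb : (⊤ : SimpleGraph (Fin 4)) ↪g G :=
    { toFun := w
      inj' := hinj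
      map_rel_iff' := by
        intro a b
        constructor
        · intro h
          rw [SimpleGraph.top_adj]
          rintro rfl
          exact G.loopless.irrefl _ h
        · intro h
          exact hadj' a b (SimpleGraph.top_adj _ _ |>.1 h) }
  exact SimpleGraph.IsContained.not_cliqueFree ⟨emb.toCopy⟩ hK

/-- from a symmetric colouring of pairs without monochromatic triangle -/
theorem of_colour {V : Type*} (G : SimpleGraph V) (c : V → V → ℕ)
    (hc : ∀ x y, G.Adj x y → c x y = c y x)
    (h3 : ∀ x y z, G.Adj x y → G.Adj y z → G.Adj x z → c x y = c y z → c x y = c x z → False) :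
    ∃ H : ℕ → SimpleGraph V, (∀ i, (H i).CliqueFree 3) ∧ ∀ x y, G.Adj x y ↔ ∃ i, (H i).Adj x y := by
  classical
  refine ⟨fun i =>
    { Adj := fun x y => G.Adj x y ∧ c x y = i
      symm := ⟨fun x y h => ⟨h.1.symm, by rw [hc y x h.1.symm]; exact h.2⟩⟩
      loopless := ⟨fun x h => G.loopless.irrefl x h.1⟩ }, ?_, ?_⟩
  · intro i s hs
    rw [SimpleGraph.is3Clique_iff] at hs
    obtain ⟨x, y, z, hxy, hxz, hyz, -⟩ := hs
    exact h3 x y z hxy.1 hyz.1 hxz.1 (hxy.2.trans hyz.2.symm) (hxy.2.trans hxz.2.symm)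
  · intro x y
    exact ⟨fun h => ⟨c x y, h, rfl⟩, fun ⟨i, h⟩ => h.1⟩

theorem of_countable {V : Type*} [Countable V] (G : SimpleGraph V) :
    ∃ H : ℕ → SimpleGraph V, (∀ i, (H i).CliqueFree 3) ∧ ∀ x y, G.Adj x y ↔ ∃ i, (H i).Adj x y := by
  obtain ⟨e, he⟩ := exists_injective_nat V
  apply of_colour G (fun x y => min (e x) (e y)) (fun x y _ => min_comm _ _)
  intro x y z hxy hyz hxz h1 h2
  have n1 : e x ≠ e y := fun h => hxy.ne (he h)
  have n2 : e y ≠ e z := fun h => hyz.ne (he h)
  have n3 : e x ≠ e z := fun h => hxz.ne (he h)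
  have h1' : min (e x) (e y) = min (e y) (e z) := h1
  have h2' : min (e x) (e y) = min (e x) (e z) := h2
  omega

/-- `K_4`-free graphs on finite sequences of elements of a linear order whose adjacency depends
only on the order type of the pair are countable unions of triangle-free graphs. -/
theorem type_graph (G : SimpleGraph (List L))
    (hG : ∀ x y x' y', SameType x y x' y' → G.Adj x y → G.Adj x' y') (hK : G.CliqueFree 4) :
    ∃ H : ℕ → SimpleGraph (List L), (∀ i, (H i).CliqueFree 3) ∧
      ∀ x y, G.Adj x y ↔ ∃ i, (H i).Adj x y := by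
  classical
  rcases finite_or_infinite L with hL | hL
  · exact of_countable G
  set T : List L → List L → ℕ × ℕ × List (List Bool) := fun x y =>
    (x.length, y.length, pat (x ++ y)) with hT
  set c : List L → List L → ℕ := fun x y =>
    if WellOrderingRel x y then Encodable.encode (T x y) else Encodable.encode (T y x) with hc
  have tri : ∀ x y z : List L, WellOrderingRel x y → WellOrderingRel y z → G.Adj x y →
      T x y = T y z → T x y = T x z → False := by
    intro x y z _ _ hxy h1 h2
    simp only [hT, Prod.mk.injEq] at h1 h2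
    exact core G hG hK x y z hxy h1.1 h1.2.1 h1.2.2 h2.2.2
  have c1 : ∀ x y, WellOrderingRel x y → c x y = Encodable.encode (T x y) := by
    intro x y h
    simp only [hc, if_pos h]
  have c2 : ∀ x y, WellOrderingRel x y → c y x = Encodable.encode (T x y) := by
    intro x y h
    have : ¬WellOrderingRel y x := fun h' => asymm h h'
    simp only [hc, if_neg this]
  have tot : ∀ x y : List L, x ≠ y → WellOrderingRel x y ∨ WellOrderingRel y x := by
    intro x y h
    rcases trichotomous_of WellOrderingRel x y with h1 | h1 | h1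
    · exact Or.inl h1
    · exact absurd h1 h
    · exact Or.inr h1
  have tri' : ∀ x y z : List L, WellOrderingRel x y → WellOrderingRel y z → WellOrderingRel x z →
      G.Adj x y → c x y = c y z → c x y = c x z → False := by
    intro x y z h1 h2 h3 hxy e1 e2
    rw [c1 x y h1, c1 y z h2] at e1
    rw [c1 x y h1, c1 x z h3] at e2
    exact tri x y z h1 h2 hxy (Encodable.encode_injective e1) (Encodable.encode_injective e2)
  have hsym : ∀ x y, G.Adj x y → c x y = c y x := by
    intro x y h
    rcases tot x y h.ne with h1 | h1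
    · rw [c1 x y h1, c2 x y h1]
    · rw [c2 y x h1, c1 y x h1]
  apply of_colour G c hsym
  intro x y z hxy hyz hxz e1 e2
  have s1 := hsym x y hxy
  have s2 := hsym y z hyz
  have s3 := hsym x z hxz
  rcases tot x y hxy.ne with a | a <;> rcases tot y z hyz.ne with b | b <;>
    rcases tot x z hxz.ne with d | d
  · exact tri' x y z a b d hxy (by omega) (by omega)
  · exact asymm (trans_of WellOrderingRel a b) d
  · exact tri' x z y d b a hxz (by omega) (by omega)
  · exact tri' z x y d a b hxz.symm (by omega) (by omega)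
  · exact tri' y x z a d b hxy.symm (by omega) (by omega)
  · exact tri' y z x b d a hyz (by omega) (by omega)
  · exact asymm (trans_of WellOrderingRel b a) d
  · exact tri' z y x b a d hyz.symm (by omega) (by omega)

end Pool.Agent.H75Ty
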